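import Pool.Agent.Q295.KC.Small

set_option autoImplicit false

/-!
# MP_2cf482_co: the largest diameter of a connected `k`-conservative graph

For every `k ≥ 2` the largest diameter `D(k)` of a connected `k`-conservative graph is
`max (2 k - 2) (3 k - 7)`, that is `2, 4, 6, 8` for `k = 2, 3, 4, 5` and `3 k - 7` for `k ≥ 5`.
-/

namespace Pool.Agent.Results.MP_2cf482_co.Diameter

open Pool.Agent.Q295.KC

/-- the diameter of the graph `H N` -/
theorem le_diam_H {N : ℕ} (hN : 1 ≤ N) : N - 1 ≤ (H N).diam :=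
  (H_dist hN).trans (SimpleGraph.dist_le_diam
    (SimpleGraph.connected_iff_ediam_ne_top.mp (H_connected N)))

/-- the upper bound -/
theorem upper {k : ℕ} (hk : 2 ≤ k) {n : ℕ} {G : SimpleGraph (Fin n)} (hc : G.Connected)
    (hG : Conservative k G) : G.diam ≤ max (2 * k - 2) (3 * k - 7) := by
  have := hc.nonempty
  obtain ⟨u, v, h⟩ := G.exists_dist_eq_diam
  rw [← h]
  by_cases h5 : 5 ≤ k
  · obtain ⟨q, rfl⟩ : ∃ q, k = q + 2 := ⟨k - 2, by omega⟩
    have := upper_large hc (by omega) hG u v
    omega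
  · obtain rfl | rfl | rfl : k = 2 ∨ k = 3 ∨ k = 4 := by omega
    · exact (upper_two hc hG u v).trans (by decide)
    · exact (upper_three hc hG u v).trans (by decide)
    · exact (upper_four hc hG u v).trans (by decide)

/-- the examples -/
theorem lower {k : ℕ} (hk : 2 ≤ k) : ∃ (n : ℕ) (G : SimpleGraph (Fin n)), G.Connected ∧
    Conservative k G ∧ max (2 * k - 2) (3 * k - 7) ≤ G.diam := by
  by_cases h5 : 5 ≤ k
  · obtain ⟨q, rfl⟩ : ∃ q, k = q + 2 := ⟨k - 2, by omega⟩
    refine ⟨_, H (3 * q), H_connected _, H_large (by omega), ?_⟩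
    have := le_diam_H (N := 3 * q) (by omega)
    omega
  · obtain rfl | rfl | rfl : k = 2 ∨ k = 3 ∨ k = 4 := by omega
    · refine ⟨_, H 2, H_connected _, two, ?_⟩
      have h1 : (H 2).dist 0 2 ≤ (H 2).diam := SimpleGraph.dist_le_diam
        (SimpleGraph.connected_iff_ediam_ne_top.mp (H_connected 2))
      have h2 : (H 2).dist 0 2 ≠ 0 := by
        rw [Ne, (H_connected 2).dist_eq_zero_iff]; decide
      have h3 : (H 2).dist 0 2 ≠ 1 := by
        rw [Ne, SimpleGraph.dist_eq_one_iff_adj]; decide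
      omega
    · refine ⟨_, H 5, H_connected _, three, ?_⟩
      have := le_diam_H (N := 5) (by omega)
      omega
    · refine ⟨_, H 7, H_connected _, four, ?_⟩
      have := le_diam_H (N := 7) (by omega)
      omega

/-- For every `k ≥ 2`, the largest diameter of a connected `k`-conservative graph is
`max (2 k - 2) (3 k - 7)`. -/
theorem result (k : ℕ) (hk : 2 ≤ k) :
    IsGreatest {d | ∃ (n : ℕ) (G : SimpleGraph (Fin n)), G.Connected ∧ Conservative k G ∧
      G.diam = d} (max (2 * k - 2) (3 * k - 7)) := by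
  constructor
  · obtain ⟨n, G, hc, hG, h⟩ := lower hk
    exact ⟨n, G, hc, hG, le_antisymm (upper hk hc hG) h⟩
  · rintro d ⟨n, G, hc, hG, rfl⟩
    exact upper hk hc hG

end Pool.Agent.Results.MP_2cf482_co.Diameter
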